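import Pool.Agent.N333.GR.Fin
import Pool.Agent.N333.GR.Rec
import Pool.Agent.N333.GR.Big
import Pool.Agent.N333.GR.Dbl
import Pool.Agent.N333.GR.Run
import Pool.Agent.N333.GR.Crt
import Pool.Agent.N333.GR.Wt
import Pool.Agent.N333.GR.Cnt

/-!
# The gcd recursion for Goldbach pairs: for almost all `N` the descent is slow

`a N` is the recursion `a_1, a_2, …` of the problem for the parameter `N` and `g N = g_N` its least
zero `n ≥ 2`. At odd steps the gcd can be of the size of `N`, and for all large `N` only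
`g_N ≥ c (log N / log log N)²` is known (starting results FareyLowerBound, QuadraticLog). For all but
`X / 2 ^ (h ^ 3)` of the `N ≤ X` the first `2 ^ h` gcds add up to at most `2 ^ (C h ^ 3)`, if
`X ≥ 2 ^ (C h ^ 4)`. Proof (`Pool/Agent/N333/GR`): put `T n = 2 N - n - 2 a (n - 1)`, then the gcds at
the odd steps divide `T n` and `2 N - n`. For almost all `N`, in each run of `r` successive gcds of
size at least `D` at least half of the sums in between are at least `D / Y` (a union bound over the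
possible runs, which is effective as the product of `r` gcds is smaller than `X`), so the number of
gcds of size at least `D / (2 G Y)` is at least `9 / 8` times the number of gcds of size at least `D`.
-/

set_option autoImplicit false

namespace Pool.Agent.Results.MP_b5e119_nt.SlowForAlmostAll

open Finset Filter

/-- the recursion of the problem: `a_1 = N - 2`, and
`a_n = a_{n-1} - gcd(a_{n-1}, N - (-1)^n (N - n))` for `n ≥ 2` (and `a_0 = 0`, not used) -/
noncomputable def a (N : ℕ) : ℕ → ℤ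
  | 0 => 0
  | 1 => (N : ℤ) - 2
  | (n + 2) => a N (n + 1) - ((Int.gcd (a N (n + 1))
      ((N : ℤ) - (-1) ^ (n + 2) * ((N : ℤ) - ((n + 2 : ℕ) : ℤ))) : ℕ) : ℤ)

/-- `g_N`: the least `n ≥ 2` with `a_n = 0` -/
noncomputable def g (N : ℕ) : ℕ := sInf {n : ℕ | 2 ≤ n ∧ a N n = 0}

lemma a_eq (N n : ℕ) : a N n = Pool.Agent.N333.GR.a N n := by
  induction n using Nat.strong_induction_on with
  | _ n ih =>
    match n with
    | 0 => rw [a, Pool.Agent.N333.GR.a]
    | 1 => rw [a, Pool.Agent.N333.GR.a]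
    | n + 2 => rw [a, Pool.Agent.N333.GR.a, ih (n + 1) (by omega)]

lemma g_eq (N : ℕ) : g N = Pool.Agent.N333.GR.g N := by
  unfold g Pool.Agent.N333.GR.g
  simp only [a_eq]

open Classical in
theorem main (h : ℕ) (hh : 40 ≤ h) (X : ℕ) (hX : 2 ^ (1000000000 * h ^ 4) ≤ X) :
    (((Icc 3 X).filter (fun N : ℕ => ¬ (2 ^ h < Pool.Agent.N333.GR.g N ∧ ∀ n, 1 ≤ n → n ≤ 2 ^ h →
      (N : ℤ) - 2 ^ (1000000000 * h ^ 3) ≤ Pool.Agent.N333.GR.a N n))).card : ℝ) ≤
      (X : ℝ) / 2 ^ (h ^ 3) :=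
  Pool.Agent.N333.GR.Fin.main2 Pool.Agent.N333.GR.Rec.t_REC Pool.Agent.N333.GR.BIG.t_BIG
    (Pool.Agent.N333.GR.Run.t_RUN Pool.Agent.N333.GR.Dbl.t_DBL)
    (Pool.Agent.N333.GR.Cnt.t_CNT Pool.Agent.N333.GR.Crt.t_CRT Pool.Agent.N333.GR.Wt.t_WB
      Pool.Agent.N333.GR.Wt.t_WA) h X hh hX

open Classical in
/-- (1) There is `C` such that for all `h ≥ C` and `X ≥ 2 ^ (C h ^ 4)`, for all but at most
`X / 2 ^ (h ^ 3)` of the `N` with `3 ≤ N ≤ X`: `g_N > 2 ^ h` and `a_n ≥ N - 2 ^ (C h ^ 3)` for all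
`n ≤ 2 ^ h`. (2) There is `c > 0` such that for all large `X`, `g_N ≥ exp (c (log N) ^ (1/4))` for
all but at most `X exp (- c (log X) ^ (3/4))` of the `N` with `3 ≤ N ≤ X`. -/
theorem result :
    (∃ C : ℕ, ∀ h : ℕ, C ≤ h → ∀ X : ℕ, 2 ^ (C * h ^ 4) ≤ X →
      (((Icc 3 X).filter (fun N : ℕ => ¬ (2 ^ h < g N ∧ ∀ n, 1 ≤ n → n ≤ 2 ^ h →
        (N : ℤ) - 2 ^ (C * h ^ 3) ≤ a N n))).card : ℝ) ≤ (X : ℝ) / 2 ^ (h ^ 3)) ∧
    (∃ c : ℝ, 0 < c ∧ ∀ᶠ X : ℕ in atTop,
      (((Icc 3 X).filter (fun N : ℕ =>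
        (g N : ℝ) < Real.exp (c * (Real.log N) ^ (1 / 4 : ℝ)))).card : ℝ) ≤
        (X : ℝ) * Real.exp (-(c * (Real.log X) ^ (3 / 4 : ℝ)))) := by
  simp only [a_eq, g_eq]
  refine ⟨⟨1000000000, fun h hh X hX => main h (by omega) X hX⟩, ?_⟩
  exact Pool.Agent.N333.GR.Fin.main3 1000000000 (by norm_num) main

end Pool.Agent.Results.MP_b5e119_nt.SlowForAlmostAll
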