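import Pool.Agent.N375.AV.F
import Pool.Agent.N375.AV.Ex
import Pool.Agent.Results.MP_b5e119_nt.SlowForAlmostAll

/-!
# The gcd recursion for Goldbach pairs at the values of additive functions and their compositions

The result SlowForAlmostAll gives a lower bound for `g_N` for almost all `N`, with an exceptional set of
`X exp (-c (log X)^(3/4))` elements up to `X`. Here the parameters `N` near the values of compositions of functions
dominated by the largest prime factor (sum of the prime factors, largest prime factor, Kempner's function, …).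
-/

set_option autoImplicit false

namespace Pool.Agent.Results.MP_b5e119_nt.AdditiveValues

open Finset Classical
open Pool.Agent.N375.AV (PD Thin comp comp_thin pd_additive pd_sopfr pd_largest pd_kempner)
open Pool.Agent.N733.TG (Expanding step_sum)
open SlowForAlmostAll (a g)

/-- the descent for the parameter `N` is slow, with the constants `c` and `D`: `g_N ≥ exp (c (log N)^(1/4))`, and
`a_n ≥ N - exp (D (log N)^(3/4))` for all `1 ≤ n ≤ exp (c (log N)^(1/4))` -/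
def Slow (c D : ℝ) (N : ℕ) : Prop :=
  Real.exp (c * Real.log N ^ (1 / 4 : ℝ)) ≤ g N ∧ ∀ n : ℕ, 1 ≤ n → (n : ℝ) ≤ Real.exp (c * Real.log N ^ (1 / 4 : ℝ)) →
    (N : ℝ) - Real.exp (D * Real.log N ^ (3 / 4 : ℝ)) ≤ a N n

/-- the exceptional set with a saving `exp (-c (log X)^(3/4))` -/
theorem few : ∃ c D c₁ K : ℝ, 0 < c ∧ 0 < D ∧ 0 < c₁ ∧ c₁ ≤ 1 ∧ 0 ≤ K ∧ ∀ X : ℕ, 1 ≤ X →
    (((Icc 3 X).filter (fun N : ℕ => ¬ Slow c D N)).card : ℝ) ≤ K * X * Real.exp (-(c₁ * Real.log X ^ (3 / 4 : ℝ))) := by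
  obtain ⟨C₀, hC₀⟩ := SlowForAlmostAll.result.1
  obtain ⟨C, hC⟩ : ∃ C : ℕ, C = C₀ + 1 := ⟨_, rfl⟩
  have hC1 : (1 : ℝ) ≤ C := by rw [hC]; push_cast; linarith [(Nat.cast_nonneg C₀ : (0 : ℝ) ≤ C₀)]
  have hC0 : (0 : ℝ) < C := by linarith
  obtain ⟨L₀, hL₀⟩ : ∃ L₀ : ℝ, L₀ = (C : ℝ) ^ 5 + 16 * C := ⟨_, rfl⟩
  have hL₀1 : 1 ≤ L₀ := by
    have : 0 ≤ (C : ℝ) ^ 5 := by positivity
    rw [hL₀]; linarith
  obtain ⟨c₁, hc₁⟩ : ∃ c₁ : ℝ, c₁ = 1 / (16 * C) := ⟨_, rfl⟩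
  have hc₁0 : 0 < c₁ := by rw [hc₁]; positivity
  have hc₁1 : c₁ ≤ 1 / 16 := by
    rw [hc₁]
    apply one_div_le_one_div_of_le (by norm_num)
    linarith
  refine ⟨1 / (4 * C), 2 * C, c₁, 2 + Real.exp (c₁ * L₀ ^ (3 / 4 : ℝ)), by positivity, by positivity, hc₁0,
    by linarith, by positivity, fun X hX => ?_⟩
  have hX1 : (1 : ℝ) ≤ X := by exact_mod_cast hX
  have hX0 : (0 : ℝ) < X := by linarith
  obtain ⟨L, hL⟩ : ∃ L : ℝ, L = Real.log X := ⟨_, rfl⟩
  have hL0 : 0 ≤ L := by rw [hL]; exact Real.log_nonneg hX1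
  have hXL : (X : ℝ) = Real.exp L := by rw [hL, Real.exp_log hX0]
  rw [← hL]
  rcases lt_or_ge L L₀ with hlt | hge
  · -- small `X`
    have h1 : (((Icc 3 X).filter (fun N : ℕ => ¬ Slow (1 / (4 * C)) (2 * C) N)).card : ℝ) ≤ X := by
      have h2 : ((Icc 3 X).filter (fun N : ℕ => ¬ Slow (1 / (4 * C)) (2 * C) N)).card ≤ X := by
        refine (card_filter_le _ _).trans ?_
        rw [Nat.card_Icc]
        omega
      exact_mod_cast h2
    refine h1.trans ?_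
    have h2 : L ^ (3 / 4 : ℝ) ≤ L₀ ^ (3 / 4 : ℝ) := Real.rpow_le_rpow hL0 hlt.le (by norm_num)
    have h3 : 1 ≤ Real.exp (c₁ * L₀ ^ (3 / 4 : ℝ)) * Real.exp (-(c₁ * L ^ (3 / 4 : ℝ))) := by
      rw [← Real.exp_add]
      apply Real.one_le_exp
      nlinarith
    have h4 := Real.exp_pos (-(c₁ * L ^ (3 / 4 : ℝ)))
    have h5 := Real.exp_pos (c₁ * L₀ ^ (3 / 4 : ℝ))
    calc (X : ℝ) = 1 * X := by ring
      _ ≤ (Real.exp (c₁ * L₀ ^ (3 / 4 : ℝ)) * Real.exp (-(c₁ * L ^ (3 / 4 : ℝ)))) * X :=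
          mul_le_mul_of_nonneg_right h3 hX0.le
      _ ≤ ((2 + Real.exp (c₁ * L₀ ^ (3 / 4 : ℝ))) * Real.exp (-(c₁ * L ^ (3 / 4 : ℝ)))) * X := by
          apply mul_le_mul_of_nonneg_right _ hX0.le
          apply mul_le_mul_of_nonneg_right _ h4.le
          linarith
      _ = _ := by ring
  · -- large `X`
    have hL1 : 1 ≤ L := hL₀1.trans hge
    have hC5 : (C : ℝ) ^ 5 ≤ L := by
      have : 0 ≤ 16 * (C : ℝ) := by positivity
      rw [hL₀] at hge; linarith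
    have h16C : 16 * (C : ℝ) ≤ L := by
      have : 0 ≤ (C : ℝ) ^ 5 := by positivity
      rw [hL₀] at hge; linarith
    obtain ⟨R, hR⟩ : ∃ R : ℝ, R = (L / C) ^ (1 / 4 : ℝ) := ⟨_, rfl⟩
    have hLC0 : 0 ≤ L / C := by positivity
    have hR0 : 0 ≤ R := by rw [hR]; positivity
    have hR4 : R ^ 4 = L / C := by
      rw [hR, ← Real.rpow_natCast, ← Real.rpow_mul hLC0]
      norm_num
    have hR3 : R ^ 3 = (L / C) ^ (3 / 4 : ℝ) := by
      rw [hR, ← Real.rpow_natCast, ← Real.rpow_mul hLC0]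
      norm_num
    have hR2 : 2 ≤ R := by
      by_contra hcon
      push Not at hcon
      have h1 : R ^ 4 < 2 ^ 4 := pow_lt_pow_left₀ hcon hR0 (by norm_num)
      rw [hR4, div_lt_iff₀ hC0] at h1
      linarith
    have hRC : (C : ℝ) ≤ R := by
      by_contra hcon
      push Not at hcon
      have h1 : R ^ 4 < (C : ℝ) ^ 4 := pow_lt_pow_left₀ hcon hR0 (by norm_num)
      rw [hR4, div_lt_iff₀ hC0] at h1
      have h2 : (C : ℝ) ^ 4 * C = (C : ℝ) ^ 5 := by ring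
      linarith
    obtain ⟨h, hh⟩ : ∃ h : ℕ, h = ⌊R⌋₊ := ⟨_, rfl⟩
    have hhR : (h : ℝ) ≤ R := by rw [hh]; exact Nat.floor_le hR0
    have hRh : R < (h : ℝ) + 1 := by rw [hh]; exact Nat.lt_floor_add_one _
    have hhalf : R / 2 ≤ h := by linarith
    have hCh : C ≤ h := by rw [hh]; exact Nat.le_floor hRC
    have hC₀h : C₀ ≤ h := by omega
    have hlog2 : (1 / 2 : ℝ) ≤ Real.log 2 := by have := Real.log_two_gt_d9; linarith
    have hlog2' : Real.log 2 ≤ 1 := by have := Real.log_two_lt_d9; linarith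
    have hpow : ∀ k : ℕ, ((2 ^ k : ℕ) : ℝ) = Real.exp (k * Real.log 2) := by
      intro k
      rw [← Real.log_pow, Real.exp_log (by positivity)]
      push_cast
      rfl
    have hC₀C : (C₀ : ℝ) ≤ C := by rw [hC]; push_cast; linarith
    have hX2 : 2 ^ (C₀ * h ^ 4) ≤ X := by
      have h1 : ((2 ^ (C₀ * h ^ 4) : ℕ) : ℝ) ≤ X := by
        rw [hpow, hXL]
        apply Real.exp_le_exp.2
        have h2 : ((C₀ * h ^ 4 : ℕ) : ℝ) ≤ L := by
          push_cast
          have h3 : (h : ℝ) ^ 4 ≤ L / C := by rw [← hR4]; exact pow_le_pow_left₀ (by positivity) hhR 4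
          calc (C₀ : ℝ) * (h : ℝ) ^ 4 ≤ C * (L / C) := mul_le_mul hC₀C h3 (by positivity) hC0.le
            _ = L := by field_simp
        calc ((C₀ * h ^ 4 : ℕ) : ℝ) * Real.log 2 ≤ L * 1 := mul_le_mul h2 hlog2' (by linarith) hL0
          _ = L := mul_one _
      exact_mod_cast h1
    have hcount := hC₀ h hC₀h X hX2
    -- the exceptions
    have hsub : (Icc 3 X).filter (fun N : ℕ => ¬ Slow (1 / (4 * C)) (2 * C) N) ⊆
        (Icc 1 (Nat.sqrt X)) ∪ (Icc 3 X).filter (fun N : ℕ => ¬ (2 ^ h < g N ∧ ∀ n, 1 ≤ n → n ≤ 2 ^ h →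
        (N : ℤ) - 2 ^ (C₀ * h ^ 3) ≤ a N n)) := by
      intro N hN
      rw [mem_filter, mem_Icc] at hN
      obtain ⟨⟨hN3, hNX⟩, hbad⟩ := hN
      rw [mem_union, mem_Icc, mem_filter, mem_Icc]
      by_cases hs : N ≤ Nat.sqrt X
      · exact Or.inl ⟨by omega, hs⟩
      · right
        refine ⟨⟨hN3, hNX⟩, fun hgood => hbad ?_⟩
        push Not at hs
        have hN0 : (0 : ℝ) < N := by exact_mod_cast (by omega : 0 < N)
        have hNN : X < N * N := Nat.sqrt_lt.1 hs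
        have hlN1 : L ≤ 2 * Real.log N := by
          have h1 : (X : ℝ) ≤ N * N := by exact_mod_cast hNN.le
          have h2 := Real.log_le_log hX0 h1
          rw [Real.log_mul hN0.ne' hN0.ne', ← hL] at h2
          linarith
        have hlN2 : Real.log N ≤ L := by
          rw [hL]
          exact Real.log_le_log hN0 (by exact_mod_cast hNX)
        have hlN0 : 0 ≤ Real.log N := by linarith
        have hle : Real.exp (1 / (4 * C) * Real.log N ^ (1 / 4 : ℝ)) ≤ ((2 ^ h : ℕ) : ℝ) := by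
          rw [hpow]
          apply Real.exp_le_exp.2
          have e1 : Real.log N ^ (1 / 4 : ℝ) ≤ L ^ (1 / 4 : ℝ) := Real.rpow_le_rpow hlN0 hlN2 (by norm_num)
          have e2 : R = L ^ (1 / 4 : ℝ) / (C : ℝ) ^ (1 / 4 : ℝ) := by rw [hR, Real.div_rpow hL0 hC0.le]
          have e3 : (C : ℝ) ^ (1 / 4 : ℝ) ≤ C := by
            calc (C : ℝ) ^ (1 / 4 : ℝ) ≤ (C : ℝ) ^ (1 : ℝ) := Real.rpow_le_rpow_of_exponent_le hC1 (by norm_num)
              _ = C := Real.rpow_one _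
          have e4 : 0 < (C : ℝ) ^ (1 / 4 : ℝ) := by positivity
          have e5 : L ^ (1 / 4 : ℝ) ≤ C * R := by
            rw [e2, ← mul_div_assoc, le_div_iff₀ e4]
            rw [mul_comm]
            exact mul_le_mul_of_nonneg_right e3 (by positivity)
          have e6 : 1 / (4 * C) * L ^ (1 / 4 : ℝ) ≤ R / 4 := by
            calc 1 / (4 * C) * L ^ (1 / 4 : ℝ) ≤ 1 / (4 * C) * (C * R) := mul_le_mul_of_nonneg_left e5 (by positivity)
              _ = R / 4 := by field_simp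
          calc 1 / (4 * C) * Real.log N ^ (1 / 4 : ℝ) ≤ 1 / (4 * C) * L ^ (1 / 4 : ℝ) :=
                mul_le_mul_of_nonneg_left e1 (by positivity)
            _ ≤ R / 4 := e6
            _ ≤ (R / 2) * (1 / 2) := by linarith
            _ ≤ h * Real.log 2 := mul_le_mul hhalf hlog2 (by norm_num) (by positivity)
        refine ⟨hle.trans ?_, fun n hn1 hn2 => ?_⟩
        · exact_mod_cast hgood.1.le
        · have hn3 : n ≤ 2 ^ h := by exact_mod_cast hn2.trans hle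
          have h1 := hgood.2 n hn1 hn3
          have h2 : (N : ℝ) - ((2 ^ (C₀ * h ^ 3) : ℕ) : ℝ) ≤ a N n := by exact_mod_cast h1
          refine le_trans ?_ h2
          have h3 : ((2 ^ (C₀ * h ^ 3) : ℕ) : ℝ) ≤ Real.exp (2 * C * Real.log N ^ (3 / 4 : ℝ)) := by
            rw [hpow]
            apply Real.exp_le_exp.2
            have e1 : (h : ℝ) ^ 3 ≤ (L / C) ^ (3 / 4 : ℝ) := by rw [← hR3]; exact pow_le_pow_left₀ (by positivity) hhR 3
            have e2 : (L / C) ^ (3 / 4 : ℝ) ≤ L ^ (3 / 4 : ℝ) := by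
              apply Real.rpow_le_rpow hLC0 _ (by norm_num)
              rw [div_le_iff₀ hC0]
              nlinarith
            have e3 : L ^ (3 / 4 : ℝ) ≤ (2 * Real.log N) ^ (3 / 4 : ℝ) := Real.rpow_le_rpow hL0 hlN1 (by norm_num)
            have e4 : (2 * Real.log N) ^ (3 / 4 : ℝ) ≤ 2 * Real.log N ^ (3 / 4 : ℝ) := by
              rw [Real.mul_rpow (by norm_num) hlN0]
              apply mul_le_mul_of_nonneg_right _ (by positivity)
              calc (2 : ℝ) ^ (3 / 4 : ℝ) ≤ (2 : ℝ) ^ (1 : ℝ) :=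
                    Real.rpow_le_rpow_of_exponent_le (by norm_num) (by norm_num)
                _ = 2 := Real.rpow_one _
            have e5 : (h : ℝ) ^ 3 ≤ 2 * Real.log N ^ (3 / 4 : ℝ) := e1.trans (e2.trans (e3.trans e4))
            have e6 : 0 ≤ Real.log N ^ (3 / 4 : ℝ) := by positivity
            push_cast
            calc (C₀ : ℝ) * (h : ℝ) ^ 3 * Real.log 2 ≤ (C * (2 * Real.log N ^ (3 / 4 : ℝ))) * 1 := by
                  apply mul_le_mul _ hlog2' (by linarith) (by positivity)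
                  exact mul_le_mul hC₀C e5 (by positivity) hC0.le
              _ = _ := by ring
          linarith
    have h1 := (card_le_card hsub).trans (card_union_le _ _)
    have h2 : (((Icc 3 X).filter (fun N : ℕ => ¬ Slow (1 / (4 * C)) (2 * C) N)).card : ℝ) ≤
        (Nat.sqrt X : ℝ) + (X : ℝ) / 2 ^ (h ^ 3) := by
      have h3 : (((Icc 3 X).filter (fun N : ℕ => ¬ Slow (1 / (4 * C)) (2 * C) N)).card : ℝ) ≤
        ((Icc 1 (Nat.sqrt X)).card : ℝ) + (((Icc 3 X).filter (fun N : ℕ => ¬ (2 ^ h < g N ∧ ∀ n, 1 ≤ n → n ≤ 2 ^ h →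
        (N : ℤ) - 2 ^ (C₀ * h ^ 3) ≤ a N n))).card : ℝ) := by exact_mod_cast h1
      rw [Nat.card_Icc, Nat.add_sub_cancel] at h3
      exact h3.trans (add_le_add le_rfl (by convert hcount using 3))
    have hL34 : L ^ (3 / 4 : ℝ) ≤ L := by
      calc L ^ (3 / 4 : ℝ) ≤ L ^ (1 : ℝ) := Real.rpow_le_rpow_of_exponent_le hL1 (by norm_num)
        _ = L := Real.rpow_one _
    have hL340 : 0 ≤ L ^ (3 / 4 : ℝ) := by positivity
    have h3 : (Nat.sqrt X : ℝ) ≤ X * Real.exp (-(c₁ * L ^ (3 / 4 : ℝ))) := by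
      have e1 : (Nat.sqrt X : ℝ) * Nat.sqrt X ≤ X := by exact_mod_cast Nat.sqrt_le X
      have e2 : (Nat.sqrt X : ℝ) ≤ Real.exp (L / 2) := by
        have e3 : Real.exp (L / 2) * Real.exp (L / 2) = X := by
          rw [← Real.exp_add, hXL]
          congr 1
          ring
        by_contra hcon
        push Not at hcon
        have := Real.exp_pos (L / 2)
        nlinarith
      refine e2.trans ?_
      rw [hXL, ← Real.exp_add]
      apply Real.exp_le_exp.2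
      nlinarith
    have h4 : (X : ℝ) / 2 ^ (h ^ 3) ≤ X * Real.exp (-(c₁ * L ^ (3 / 4 : ℝ))) := by
      have e1 : (2 : ℝ) ^ (h ^ 3) = Real.exp ((h ^ 3 : ℕ) * Real.log 2) := by
        rw [← hpow]
        push_cast
        rfl
      rw [e1, div_eq_mul_inv, ← Real.exp_neg]
      apply mul_le_mul_of_nonneg_left _ hX0.le
      apply Real.exp_le_exp.2
      have e2 : (R / 2) ^ 3 ≤ (h : ℝ) ^ 3 := pow_le_pow_left₀ (by positivity) hhalf 3
      have e3 : (R / 2) ^ 3 = R ^ 3 / 8 := by ring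
      have e4 : L ^ (3 / 4 : ℝ) ≤ C * R ^ 3 := by
        rw [hR3, Real.div_rpow hL0 hC0.le]
        have e5 : (C : ℝ) ^ (3 / 4 : ℝ) ≤ C := by
          calc (C : ℝ) ^ (3 / 4 : ℝ) ≤ (C : ℝ) ^ (1 : ℝ) := Real.rpow_le_rpow_of_exponent_le hC1 (by norm_num)
            _ = C := Real.rpow_one _
        have e6 : 0 < (C : ℝ) ^ (3 / 4 : ℝ) := by positivity
        rw [← mul_div_assoc, le_div_iff₀ e6, mul_comm]
        exact mul_le_mul_of_nonneg_right e5 (by positivity)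
      have e7 : c₁ * L ^ (3 / 4 : ℝ) ≤ R ^ 3 / 16 := by
        rw [hc₁]
        calc 1 / (16 * (C : ℝ)) * L ^ (3 / 4 : ℝ) ≤ 1 / (16 * C) * (C * R ^ 3) :=
              mul_le_mul_of_nonneg_left e4 (by positivity)
          _ = R ^ 3 / 16 := by field_simp
      have e8 : R ^ 3 / 16 ≤ (h : ℝ) ^ 3 * Real.log 2 := by
        calc R ^ 3 / 16 = (R ^ 3 / 8) * (1 / 2) := by ring
          _ ≤ (h : ℝ) ^ 3 * Real.log 2 := by
            apply mul_le_mul _ hlog2 (by norm_num) (by positivity)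
            rw [← e3]
            exact e2
      push_cast
      linarith
    have h5 : 0 ≤ Real.exp (c₁ * L₀ ^ (3 / 4 : ℝ)) * (X * Real.exp (-(c₁ * L ^ (3 / 4 : ℝ)))) := by positivity
    calc _ ≤ (Nat.sqrt X : ℝ) + (X : ℝ) / 2 ^ (h ^ 3) := h2
      _ ≤ 2 * (X * Real.exp (-(c₁ * L ^ (3 / 4 : ℝ)))) := by linarith
      _ ≤ 2 * (X * Real.exp (-(c₁ * L ^ (3 / 4 : ℝ)))) +
          Real.exp (c₁ * L₀ ^ (3 / 4 : ℝ)) * (X * Real.exp (-(c₁ * L ^ (3 / 4 : ℝ)))) := by linarith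
      _ = _ := by ring

/-- the numbers `v` such that `G v` is close to an element of a set with a saving `exp (-c (log X)^(3/4))` -/
theorem thin_near {B : Set ℕ} {c₁ K : ℝ} (hc₁ : 0 < c₁) (hc₁1 : c₁ ≤ 1) (hK : 0 ≤ K)
    (hB : ∀ X : ℕ, 1 ≤ X → (((Icc 3 X).filter (fun N => N ∈ B)).card : ℝ) ≤
      K * X * Real.exp (-(c₁ * Real.log X ^ (3 / 4 : ℝ)))) {G : ℕ → ℝ} (hG : Expanding G 1) :
    ∃ K' : ℝ, 0 ≤ K' ∧ Thin (3 / 4) (c₁ / 2) K'
      {v | ∃ N ∈ B, 3 ≤ N ∧ |(N : ℝ) - G v| ≤ Real.exp (c₁ / 2 * Real.log v ^ (3 / 4 : ℝ))} := by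
  obtain ⟨-, ⟨a, ha, hstep⟩, ⟨C₁, hC₁⟩⟩ := hG
  obtain ⟨M, hM⟩ := exists_nat_ge (|C₁| + 3)
  have hM1 : (1 : ℝ) ≤ M := by linarith [abs_nonneg C₁]
  have hM1' : 1 ≤ M := by exact_mod_cast hM1
  refine ⟨(2 / a + 1) * K * M + 3, by positivity, fun X hX => ?_⟩
  have hX1 : (1 : ℝ) ≤ X := by exact_mod_cast hX
  have hX0 : (0 : ℝ) < X := by linarith
  obtain ⟨L, hL⟩ : ∃ L : ℝ, L = Real.log X := ⟨_, rfl⟩
  have hL0 : 0 ≤ L := by rw [hL]; exact Real.log_nonneg hX1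
  have hXL : (X : ℝ) = Real.exp L := by rw [hL, Real.exp_log hX0]
  have hL34 : 0 ≤ L ^ (3 / 4 : ℝ) := by positivity
  have hL34' : L ^ (3 / 4 : ℝ) ≤ L + 1 := by
    rcases le_or_gt L 1 with h | h
    · have := Real.rpow_le_one hL0 h (by norm_num : (0 : ℝ) ≤ 3 / 4)
      linarith
    · calc L ^ (3 / 4 : ℝ) ≤ L ^ (1 : ℝ) := Real.rpow_le_rpow_of_exponent_le h.le (by norm_num)
        _ = L := Real.rpow_one _
        _ ≤ L + 1 := by linarith
  obtain ⟨W, hW⟩ : ∃ W : ℝ, W = Real.exp (c₁ / 2 * L ^ (3 / 4 : ℝ)) := ⟨_, rfl⟩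
  have hW1 : 1 ≤ W := by rw [hW]; exact Real.one_le_exp (by positivity)
  have he3 : Real.exp 1 ≤ 3 := by have := Real.exp_one_lt_d9; linarith
  have hW3 : W ≤ 3 * X := by
    have h1 : W ≤ Real.exp (L + 1) := by
      rw [hW]
      apply Real.exp_le_exp.2
      nlinarith
    rw [Real.exp_add, ← hXL] at h1
    nlinarith
  obtain ⟨T, hT⟩ : ∃ T : ℕ → Finset ℕ, T = fun N : ℕ => (Icc 1 X).filter (fun v : ℕ => |(N : ℝ) - G v| ≤ W) := ⟨_, rfl⟩
  obtain ⟨Bs, hBs⟩ : ∃ Bs : Finset ℕ, Bs = (Icc 3 (M * X)).filter (fun N => N ∈ B) := ⟨_, rfl⟩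
  have hsub : (range (X + 1)).filter (fun v => v ∈ {v | ∃ N ∈ B, 3 ≤ N ∧ |(N : ℝ) - G v| ≤
      Real.exp (c₁ / 2 * Real.log v ^ (3 / 4 : ℝ))}) ⊆ insert 0 (Bs.biUnion T) := by
    intro v hv
    rw [mem_filter, mem_range] at hv
    obtain ⟨hvX, N, hN, hN3, h1⟩ := hv
    rw [mem_insert]
    rcases Nat.eq_zero_or_pos v with h0 | h0
    · left; exact h0
    · right
      have hv1 : (1 : ℝ) ≤ v := by exact_mod_cast h0
      have hvX' : (v : ℝ) ≤ X := by exact_mod_cast (by omega : v ≤ X)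
      have h2 : Real.exp (c₁ / 2 * Real.log v ^ (3 / 4 : ℝ)) ≤ W := by
        rw [hW]
        apply Real.exp_le_exp.2
        apply mul_le_mul_of_nonneg_left _ (by positivity)
        apply Real.rpow_le_rpow (Real.log_nonneg hv1) _ (by norm_num)
        rw [hL]
        exact Real.log_le_log (by linarith) hvX'
      have h3 : |(N : ℝ) - G v| ≤ W := h1.trans h2
      rw [mem_biUnion]
      refine ⟨N, ?_, ?_⟩
      · rw [hBs, mem_filter, mem_Icc]
        refine ⟨⟨hN3, ?_⟩, hN⟩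
        have e1 := (abs_le.1 h3).2
        have e2 : G v ≤ |C₁| * X := by
          calc G v ≤ C₁ * (v : ℝ) ^ (1 : ℝ) := hC₁ v h0
            _ = C₁ * v := by rw [Real.rpow_one]
            _ ≤ |C₁| * v := mul_le_mul_of_nonneg_right (le_abs_self _) (by linarith)
            _ ≤ |C₁| * X := mul_le_mul_of_nonneg_left hvX' (abs_nonneg _)
        have e3 : (N : ℝ) ≤ ((M * X : ℕ) : ℝ) := by
          push_cast
          nlinarith
        exact_mod_cast e3
      · rw [hT, mem_filter, mem_Icc]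
        exact ⟨⟨h0, by omega⟩, h3⟩
  have hTc : ∀ N : ℕ, ((T N).card : ℝ) ≤ (2 / a + 1) * W := by
    intro N
    have h0 : (0 : ℝ) ≤ 2 * W / a := by positivity
    rcases (T N).eq_empty_or_nonempty with he | he
    · rw [he]
      simp only [card_empty, Nat.cast_zero]
      positivity
    · obtain ⟨v0, hv0⟩ : ∃ v0, v0 = (T N).min' he := ⟨_, rfl⟩
      have hv0m : v0 ∈ T N := by rw [hv0]; exact min'_mem _ _
      have hs' : T N ⊆ Icc v0 (v0 + ⌊2 * W / a⌋₊) := by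
        intro v hv
        have h1 : v0 ≤ v := by rw [hv0]; exact min'_le _ _ hv
        rw [mem_Icc]
        refine ⟨h1, ?_⟩
        rw [hT, mem_filter, mem_Icc] at hv hv0m
        have h2 := abs_le.1 hv.2
        have h3 := abs_le.1 hv0m.2
        have h4 : ((v - v0 : ℕ) : ℝ) ≤ 2 * W / a := by
          rw [le_div_iff₀ ha]
          have := step_sum hstep hv0m.1.1 h1
          linarith [h2.1, h3.2]
        have := Nat.le_floor h4
        omega
      have h5 := card_le_card hs'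
      rw [Nat.card_Icc] at h5
      have h6 : (((T N).card : ℕ) : ℝ) ≤ (⌊2 * W / a⌋₊ : ℝ) + 1 := by
        have : (T N).card ≤ ⌊2 * W / a⌋₊ + 1 := by omega
        exact_mod_cast this
      have h7 := Nat.floor_le h0
      calc ((T N).card : ℝ) ≤ (⌊2 * W / a⌋₊ : ℝ) + 1 := h6
        _ ≤ 2 * W / a + W := by linarith
        _ = (2 / a + 1) * W := by ring
  have h1 : (((range (X + 1)).filter (fun v => v ∈ {v | ∃ N ∈ B, 3 ≤ N ∧ |(N : ℝ) - G v| ≤
      Real.exp (c₁ / 2 * Real.log v ^ (3 / 4 : ℝ))})).card : ℝ) ≤ (∑ N ∈ Bs, ((T N).card : ℝ)) + 1 := by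
    have e1 := (card_le_card hsub).trans (card_insert_le _ _)
    have e2 : (Bs.biUnion T).card ≤ ∑ N ∈ Bs, (T N).card := card_biUnion_le
    have e3 := e1.trans (Nat.add_le_add_right e2 1)
    exact_mod_cast e3
  refine h1.trans ?_
  have h2 : ∑ N ∈ Bs, ((T N).card : ℝ) ≤ (Bs.card : ℝ) * ((2 / a + 1) * W) := by
    calc ∑ N ∈ Bs, ((T N).card : ℝ) ≤ ∑ N ∈ Bs, (2 / a + 1) * W := sum_le_sum fun N _ => hTc N
      _ = _ := by rw [sum_const, nsmul_eq_mul]
  have h3 : (Bs.card : ℝ) ≤ K * M * X * Real.exp (-(c₁ * L ^ (3 / 4 : ℝ))) := by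
    have e1 := hB (M * X) (Nat.mul_pos (by omega) (by omega))
    rw [← hBs] at e1
    push_cast at e1
    refine e1.trans ?_
    have e2 : L ≤ Real.log (M * X) := by
      rw [hL]
      apply Real.log_le_log hX0
      nlinarith
    have e3 : Real.exp (-(c₁ * Real.log (M * X) ^ (3 / 4 : ℝ))) ≤ Real.exp (-(c₁ * L ^ (3 / 4 : ℝ))) := by
      apply Real.exp_le_exp.2
      have := Real.rpow_le_rpow hL0 e2 (by norm_num : (0 : ℝ) ≤ 3 / 4)
      nlinarith
    calc K * (M * X) * Real.exp (-(c₁ * Real.log (M * X) ^ (3 / 4 : ℝ)))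
        ≤ K * (M * X) * Real.exp (-(c₁ * L ^ (3 / 4 : ℝ))) := mul_le_mul_of_nonneg_left e3 (by positivity)
      _ = _ := by ring
  have h4 : Real.exp (-(c₁ * L ^ (3 / 4 : ℝ))) * W = Real.exp (-(c₁ / 2 * L ^ (3 / 4 : ℝ))) := by
    rw [hW, ← Real.exp_add]
    congr 1
    ring
  have h5 : 1 ≤ 3 * (X * Real.exp (-(c₁ / 2 * L ^ (3 / 4 : ℝ)))) := by
    have e1 : Real.exp (-1) ≤ X * Real.exp (-(c₁ / 2 * L ^ (3 / 4 : ℝ))) := by
      rw [hXL, ← Real.exp_add]
      apply Real.exp_le_exp.2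
      nlinarith
    have e2 : Real.exp 1 * Real.exp (-1) = 1 := by rw [← Real.exp_add]; simp
    have e3 := Real.exp_pos (-1)
    nlinarith
  rw [← hL]
  calc (∑ N ∈ Bs, ((T N).card : ℝ)) + 1 ≤ (Bs.card : ℝ) * ((2 / a + 1) * W) + 1 := by linarith
    _ ≤ K * M * X * Real.exp (-(c₁ * L ^ (3 / 4 : ℝ))) * ((2 / a + 1) * W) + 1 := by
        have := mul_le_mul_of_nonneg_right h3 (by positivity : (0 : ℝ) ≤ (2 / a + 1) * W)
        linarith
    _ = (2 / a + 1) * K * M * X * (Real.exp (-(c₁ * L ^ (3 / 4 : ℝ))) * W) + 1 := by ring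
    _ = (2 / a + 1) * K * M * (X * Real.exp (-(c₁ / 2 * L ^ (3 / 4 : ℝ)))) + 1 := by rw [h4]; ring
    _ ≤ (2 / a + 1) * K * M * (X * Real.exp (-(c₁ / 2 * L ^ (3 / 4 : ℝ)))) +
        3 * (X * Real.exp (-(c₁ / 2 * L ^ (3 / 4 : ℝ)))) := by linarith
    _ = _ := by ring

theorem slow_mono {c c' D : ℝ} (h : c' ≤ c) {N : ℕ} (hN : 3 ≤ N) (hs : Slow c D N) : Slow c' D N := by
  have h0 : 0 ≤ Real.log N := Real.log_nonneg (by exact_mod_cast (by omega : 1 ≤ N))
  have h1 : Real.exp (c' * Real.log N ^ (1 / 4 : ℝ)) ≤ Real.exp (c * Real.log N ^ (1 / 4 : ℝ)) := by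
    apply Real.exp_le_exp.2
    apply mul_le_mul_of_nonneg_right h (by positivity)
  exact ⟨h1.trans hs.1, fun n hn1 hn2 => hs.2 n hn1 (hn2.trans h1)⟩

/-- There are `c, D > 0` such that: (1) for every composition `F = f_1 ∘ … ∘ f_k` of functions with the property `PD`
and every expanding `G` of order one, for all `m ≤ M` but at most `K M exp (-c' (log M)^(3/(4+3k)))` (`c' > 0`), for EVERY
`N ≥ 3` with `|N - G (F m)| ≤ exp (c (log F(m))^(3/4))`: `g_N ≥ exp (c (log N)^(1/4))`, and the recursion for the parameter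
`N` satisfies `a_n ≥ N - exp (D (log N)^(3/4))` for all `n ≤ exp (c (log N)^(1/4))`. (2) The additive functions with
`f(q^j) ≤ C q^j` which are injective at the large primes, for example the sum of the prime factors, the largest prime
factor and Kempner's function have the property `PD`; `α v + β` (`α > 0`) is expanding of order one. -/
theorem result :
    (∃ c D : ℝ, 0 < c ∧ 0 < D ∧ ∀ fs : List (ℕ → ℕ), (∀ f ∈ fs, PD f) → ∀ G : ℕ → ℝ, Expanding G 1 →
      ∃ c' K' : ℝ, 0 < c' ∧ ∀ M : ℕ, 1 ≤ M →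
        ({m : ℕ | 1 ≤ m ∧ m ≤ M ∧ ¬ ∀ N : ℕ, 3 ≤ N →
          |(N : ℝ) - G (comp fs m)| ≤ Real.exp (c * Real.log (comp fs m) ^ (3 / 4 : ℝ)) → Slow c D N}.ncard : ℝ) ≤
            K' * M * Real.exp (-(c' * Real.log M ^ (3 / (4 + 3 * (fs.length : ℝ)))))) ∧
    (∀ f : ℕ → ℕ, (∀ a b : ℕ, Nat.Coprime a b → f (a * b) = f a + f b) →
      (∃ C : ℕ, ∀ q j : ℕ, q.Prime → 1 ≤ j → f (q ^ j) ≤ C * q ^ j) →
      (∃ P : ℕ, ∀ p q : ℕ, p.Prime → q.Prime → P ≤ p → P ≤ q → f p = f q → p = q) → PD f) ∧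
    PD (fun n => n.primeFactorsList.sum) ∧ PD (fun n => n.primeFactors.sup id) ∧
    PD (fun n => sInf {k : ℕ | n ∣ k.factorial}) ∧
    ∀ α β : ℝ, 0 < α → Expanding (fun v => α * (v : ℝ) + β) 1 := by
  refine ⟨?_, fun f h1 h2 h3 => pd_additive h1 h2 h3, pd_sopfr, pd_largest, pd_kempner, ?_⟩
  · obtain ⟨c₀, D, c₁, K, hc₀, hD, hc₁, hc₁1, hK, hfew⟩ := few
    obtain ⟨c, hc⟩ : ∃ c : ℝ, c = min c₀ (c₁ / 2) := ⟨_, rfl⟩
    have hcc₀ : c ≤ c₀ := by rw [hc]; exact min_le_left _ _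
    have hcc₁ : c ≤ c₁ / 2 := by rw [hc]; exact min_le_right _ _
    refine ⟨c, D, by rw [hc]; exact lt_min hc₀ (by positivity), hD, fun fs hfs G hG => ?_⟩
    obtain ⟨K₁, hK₁, hthin⟩ := thin_near (B := {N | ¬ Slow c₀ D N}) hc₁ hc₁1 hK (fun X hX => by
      simpa only [Set.mem_ofPred_eq] using hfew X hX) hG
    obtain ⟨c', K', hc', -, h⟩ := comp_thin fs hfs (β := 3 / 4) (c := c₁ / 2) (K := K₁) (by norm_num) (by norm_num)
      (by positivity) hK₁
    refine ⟨c', K', hc', fun M hM => ?_⟩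
    have h2 := h _ hthin M hM
    have h3 : (3 / 4 : ℝ) / (1 + fs.length * (3 / 4)) = 3 / (4 + 3 * (fs.length : ℝ)) := by
      have : (0 : ℝ) ≤ fs.length := Nat.cast_nonneg _
      rw [div_eq_div_iff (by positivity) (by positivity)]
      ring
    rw [h3] at h2
    refine le_trans ?_ h2
    have h4 : {m : ℕ | 1 ≤ m ∧ m ≤ M ∧ ¬ ∀ N : ℕ, 3 ≤ N →
          |(N : ℝ) - G (comp fs m)| ≤ Real.exp (c * Real.log (comp fs m) ^ (3 / 4 : ℝ)) → Slow c D N} ⊆
        (((range (M + 1)).filter (fun v => v ∈ comp fs ⁻¹' {v | ∃ N ∈ {N | ¬ Slow c₀ D N}, 3 ≤ N ∧ |(N : ℝ) - G v| ≤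
          Real.exp (c₁ / 2 * Real.log v ^ (3 / 4 : ℝ))}) : Finset ℕ) : Set ℕ) := by
      rintro m ⟨hm1, hmM, hm⟩
      push Not at hm
      obtain ⟨N, hN, h5, h6⟩ := hm
      rw [mem_coe, mem_filter, mem_range]
      refine ⟨by omega, N, fun h7 => h6 (slow_mono hcc₀ hN h7), hN, h5.trans ?_⟩
      apply Real.exp_le_exp.2
      apply mul_le_mul_of_nonneg_right hcc₁
      apply Real.rpow_nonneg
      exact Real.log_natCast_nonneg _
    have h5 := Set.ncard_le_ncard h4 (finite_toSet _)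
    rw [Set.ncard_coe_finset] at h5
    exact_mod_cast h5
  · intro α β hα
    refine ⟨le_rfl, ⟨α, hα, fun v _ => ?_⟩, ⟨α + |β|, fun v hv => ?_⟩⟩
    · push_cast
      linarith
    · have hv1 : (1 : ℝ) ≤ v := by exact_mod_cast hv
      rw [Real.rpow_one]
      have := le_abs_self β
      have := abs_nonneg β
      nlinarith

end Pool.Agent.Results.MP_b5e119_nt.AdditiveValues
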