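import Pool.Agent.N943.DS.Pr
import Pool.Agent.Results.MP_b5e119_nt.AdditiveValues

/-!
# The gcd recursion for Goldbach pairs at ALL large divisors of almost all integers and shifted primes

The result SlowForAlmostAll gives a lower bound for `g_N` for almost all `N`, with an exceptional set of
`X exp (-c (log X)^(3/4))` elements up to `X`. Here it is shown that for almost all integers `n`, and for
almost all primes `p`, the bound holds for ALL `N` near `G d`, for ALL divisors `d ≥ y` of `n`, and of `p + a`,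
at the same time. For the integers this is a union bound; for the primes it uses the Brun-Titchmarsh
inequality for the moduli `d ≤ √X` in the exceptional set, and for the larger moduli that the sum of
their reciprocals is smaller than every power of `1 / log X`.
-/

set_option autoImplicit false

namespace Pool.Agent.Results.MP_b5e119_nt.DivisorsOfShiftedPrimes

open Finset Classical
open Pool.Agent.N733.TG (Expanding)
open SlowForAlmostAll (a g)

/-- the descent for the parameter `N` is slow, with the constants `c` and `D`: `g_N ≥ exp (c (log N)^(1/4))`, and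
`a_n ≥ N - exp (D (log N)^(3/4))` for all `1 ≤ n ≤ exp (c (log N)^(1/4))` -/
def Slow (c D : ℝ) (N : ℕ) : Prop :=
  Real.exp (c * Real.log N ^ (1 / 4 : ℝ)) ≤ g N ∧ ∀ n : ℕ, 1 ≤ n → (n : ℝ) ≤ Real.exp (c * Real.log N ^ (1 / 4 : ℝ)) →
    (N : ℝ) - Real.exp (D * Real.log N ^ (3 / 4 : ℝ)) ≤ a N n

/-- the descent is slow for EVERY parameter `N ≥ 3` in the window of length `2 exp (c (log d)^(3/4))` around `G d` -/
def SlowNear (c D : ℝ) (G : ℕ → ℝ) (d : ℕ) : Prop :=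
  ∀ N : ℕ, 3 ≤ N → |(N : ℝ) - G d| ≤ Real.exp (c * Real.log d ^ (3 / 4 : ℝ)) → Slow c D N

/-- There are `c, D > 0` such that for every expanding `G` of order one there are `c' > 0` and `K` with:
(1) for all `y ≥ 1` and `X`, for all but at most `K X exp (-c' (log y)^(3/4))` of the `n ≤ X`, the descent is slow
near `G d` for EVERY divisor `d ≥ y` of `n`; (2) for every integer `b` and `1 ≤ y ≤ X`, `X ≥ 4`, for all but at most
`K (1 + |b|) X / log X * exp (-c' (log y)^(3/4))` of the primes `p` with `|b| < p ≤ X`, the descent is slow near `G d`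
for EVERY divisor `d ≥ y` of `p + b`. -/
theorem result : ∃ c D : ℝ, 0 < c ∧ 0 < D ∧ ∀ G : ℕ → ℝ, Expanding G 1 → ∃ c' K : ℝ, 0 < c' ∧
    (∀ X y : ℕ, 1 ≤ y →
      (((Icc 1 X).filter (fun n : ℕ => ¬ ∀ d : ℕ, d ∣ n → y ≤ d → SlowNear c D G d)).card : ℝ) ≤
        K * X * Real.exp (-(c' * Real.log y ^ (3 / 4 : ℝ)))) ∧
    (∀ (b : ℤ) (X y : ℕ), 1 ≤ y → y ≤ X → 4 ≤ X →
      (((Icc 1 X).filter (fun p : ℕ => p.Prime ∧ |b| < p ∧
        ¬ ∀ d : ℕ, (d : ℤ) ∣ (p : ℤ) + b → y ≤ d → SlowNear c D G d)).card : ℝ) ≤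
        K * (1 + |(b : ℝ)|) * (X / Real.log X) * Real.exp (-(c' * Real.log y ^ (3 / 4 : ℝ)))) := by
  obtain ⟨c₀, D, c₁, K, hc₀, hD, hc₁, hc₁1, hK, hfew⟩ := AdditiveValues.few
  obtain ⟨c, hc⟩ : ∃ c : ℝ, c = min c₀ (c₁ / 2) := ⟨_, rfl⟩
  have hcc₀ : c ≤ c₀ := by rw [hc]; exact min_le_left _ _
  have hcc₁ : c ≤ c₁ / 2 := by rw [hc]; exact min_le_right _ _
  refine ⟨c, D, by rw [hc]; exact lt_min hc₀ (by positivity), hD, fun G hG => ?_⟩
  obtain ⟨K₁, hK₁, hthin⟩ := AdditiveValues.thin_near (B := {N | ¬ AdditiveValues.Slow c₀ D N}) hc₁ hc₁1 hK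
    (fun X hX => by simpa only [Set.mem_ofPred_eq] using hfew X hX) hG
  obtain ⟨E, hE⟩ : ∃ E : Set ℕ, E = {v : ℕ | ∃ N ∈ {N : ℕ | ¬ AdditiveValues.Slow c₀ D N}, 3 ≤ N ∧
    |(N : ℝ) - G v| ≤ Real.exp (c₁ / 2 * Real.log v ^ (3 / 4 : ℝ))} := ⟨_, rfl⟩
  rw [← hE] at hthin
  have hbad : ∀ d : ℕ, ¬ SlowNear c D G d → d ∈ E := by
    intro d hd
    unfold SlowNear at hd
    push Not at hd
    obtain ⟨N, hN, h5, h6⟩ := hd
    rw [hE]
    refine ⟨N, fun h7 => h6 (AdditiveValues.slow_mono hcc₀ hN h7), hN, h5.trans ?_⟩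
    apply Real.exp_le_exp.2
    apply mul_le_mul_of_nonneg_right hcc₁
    apply Real.rpow_nonneg
    exact Real.log_natCast_nonneg _
  obtain ⟨K₂, hK₂, h2⟩ := Pool.Agent.N943.DS.ints (β := 3 / 4) (c := c₁ / 2) (K := K₁) (by norm_num)
    (by positivity) hK₁
  obtain ⟨K₃, hK₃, h3⟩ := Pool.Agent.N943.DS.shifted (β := 3 / 4) (c := c₁ / 2) (K := K₁) (by norm_num)
    (by norm_num) (by positivity) hK₁
  have hc'0 : 0 < c₁ / 2 / 8 := by positivity
  refine ⟨c₁ / 2 / 8, K₂ + K₃, hc'0, fun X y hy => ?_, fun b X y hy hyX hX => ?_⟩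
  · have hly : 0 ≤ Real.log y ^ (3 / 4 : ℝ) := Real.rpow_nonneg (Real.log_natCast_nonneg _) _
    have h4 : ((Icc 1 X).filter (fun n : ℕ => ¬ ∀ d : ℕ, d ∣ n → y ≤ d → SlowNear c D G d)).card ≤
        ((Icc 1 X).filter (fun n => ∃ d : ℕ, d ∣ n ∧ y ≤ d ∧ d ∈ E)).card := by
      apply card_le_card
      intro n hn
      rw [mem_filter] at hn ⊢
      refine ⟨hn.1, ?_⟩
      have h5 := hn.2
      push Not at h5
      obtain ⟨d, hd, hyd, hbd⟩ := h5
      exact ⟨d, hd, hyd, hbad d hbd⟩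
    have h5 := h2 E hthin X y hy
    have h6 : Real.exp (-(c₁ / 2 / 2 * Real.log y ^ (3 / 4 : ℝ))) ≤
        Real.exp (-(c₁ / 2 / 8 * Real.log y ^ (3 / 4 : ℝ))) := by
      apply Real.exp_le_exp.2
      nlinarith
    calc (((Icc 1 X).filter (fun n : ℕ => ¬ ∀ d : ℕ, d ∣ n → y ≤ d → SlowNear c D G d)).card : ℝ)
        ≤ (((Icc 1 X).filter (fun n => ∃ d : ℕ, d ∣ n ∧ y ≤ d ∧ d ∈ E)).card : ℝ) := by exact_mod_cast h4
      _ ≤ K₂ * X * Real.exp (-(c₁ / 2 / 2 * Real.log y ^ (3 / 4 : ℝ))) := h5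
      _ ≤ K₂ * X * Real.exp (-(c₁ / 2 / 8 * Real.log y ^ (3 / 4 : ℝ))) :=
          mul_le_mul_of_nonneg_left h6 (by positivity)
      _ ≤ (K₂ + K₃) * X * Real.exp (-(c₁ / 2 / 8 * Real.log y ^ (3 / 4 : ℝ))) := by
          apply mul_le_mul_of_nonneg_right _ (Real.exp_pos _).le
          apply mul_le_mul_of_nonneg_right _ (Nat.cast_nonneg _)
          linarith
  · have hba : ((b.natAbs : ℕ) : ℤ) = |b| := Int.natCast_natAbs b
    have hba' : ((b.natAbs : ℕ) : ℝ) = |(b : ℝ)| := by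
      have : (((b.natAbs : ℕ) : ℤ) : ℝ) = ((|b| : ℤ) : ℝ) := by rw [hba]
      push_cast at this
      simpa using this
    have h4 : ((Icc 1 X).filter (fun p : ℕ => p.Prime ∧ |b| < p ∧
        ¬ ∀ d : ℕ, (d : ℤ) ∣ (p : ℤ) + b → y ≤ d → SlowNear c D G d)).card ≤
        ((Icc 1 X).filter (fun p : ℕ => p.Prime ∧ b.natAbs < p ∧
          ∃ d : ℕ, (d : ℤ) ∣ (p : ℤ) + b ∧ y ≤ d ∧ d ∈ E)).card := by
      apply card_le_card
      intro p hp
      rw [mem_filter] at hp ⊢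
      obtain ⟨hp1, hp2, hp3, hp4⟩ := hp
      refine ⟨hp1, hp2, by omega, ?_⟩
      push Not at hp4
      obtain ⟨d, hd, hyd, hbd⟩ := hp4
      exact ⟨d, hd, hyd, hbad d hbd⟩
    have h5 := h3 E hthin b X y hy hyX hX
    rw [hba'] at h5
    have hX4 : (4 : ℝ) ≤ X := by exact_mod_cast hX
    have hlX : 0 < Real.log X := Real.log_pos (by linarith)
    have hb0 := abs_nonneg (b : ℝ)
    calc (((Icc 1 X).filter (fun p : ℕ => p.Prime ∧ |b| < p ∧
        ¬ ∀ d : ℕ, (d : ℤ) ∣ (p : ℤ) + b → y ≤ d → SlowNear c D G d)).card : ℝ)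
        ≤ (((Icc 1 X).filter (fun p : ℕ => p.Prime ∧ b.natAbs < p ∧
          ∃ d : ℕ, (d : ℤ) ∣ (p : ℤ) + b ∧ y ≤ d ∧ d ∈ E)).card : ℝ) := by exact_mod_cast h4
      _ ≤ K₃ * (1 + |(b : ℝ)|) * (X / Real.log X) * Real.exp (-(c₁ / 2 / 8 * Real.log y ^ (3 / 4 : ℝ))) := h5
      _ ≤ (K₂ + K₃) * (1 + |(b : ℝ)|) * (X / Real.log X) * Real.exp (-(c₁ / 2 / 8 * Real.log y ^ (3 / 4 : ℝ))) := by
          apply mul_le_mul_of_nonneg_right _ (Real.exp_pos _).le
          apply mul_le_mul_of_nonneg_right _ (by positivity)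
          apply mul_le_mul_of_nonneg_right _ (by positivity)
          linarith

end Pool.Agent.Results.MP_b5e119_nt.DivisorsOfShiftedPrimes
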