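import Pool.Agent.N575.PA.Null
import Pool.Agent.Results.MP_b5e119_nt.AdditiveValues

/-!
# The gcd recursion for Goldbach pairs at the integers which approximate almost all padic integers

The result SlowForAlmostAll gives a slow descent of the recursion for almost all parameters `N`. Here the parameters are the
natural numbers `N` which are close to a fixed padic integer `x` (in particular the truncations `x mod p ^ n` of its
expansion) and the numerators and denominators of the rational numbers close to `x`, for almost all `x`.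
-/

set_option autoImplicit false

namespace Pool.Agent.Results.MP_b5e119_nt.PadicApproximations

open Finset Classical
open Pool.Agent.N575.PA (HaarNull null_bad null_limsup)
open AdditiveValues (Slow)

/-- the parameter `N` is at least `3` and its descent is slow, with the constants `c` and `D`: `g_N ≥ exp (c (log N)^(1/4))`,
and `a_n ≥ N - exp (D (log N)^(3/4))` for all `1 ≤ n ≤ exp (c (log N)^(1/4))` -/
def Good (c D : ℝ) (N : ℕ) : Prop := 3 ≤ N ∧ Slow c D N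

/-- a lower bound for `X exp (-c (log X)^(3/4))` -/
lemma one_le {c₁ : ℝ} (hc₁ : 0 < c₁) (hc₁1 : c₁ ≤ 1) {X : ℕ} (hX : 1 ≤ X) :
    1 ≤ 3 * ((X : ℝ) * Real.exp (-(c₁ * Real.log X ^ (3 / 4 : ℝ)))) := by
  have hX1 : (1 : ℝ) ≤ X := by exact_mod_cast hX
  have hX0 : (0 : ℝ) < X := by linarith
  obtain ⟨L, hL⟩ : ∃ L : ℝ, L = Real.log X := ⟨_, rfl⟩
  have hL0 : 0 ≤ L := by rw [hL]; exact Real.log_nonneg hX1
  have hXL : (X : ℝ) = Real.exp L := by rw [hL, Real.exp_log hX0]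
  have hL34 : 0 ≤ L ^ (3 / 4 : ℝ) := by positivity
  have hL34' : L ^ (3 / 4 : ℝ) ≤ L + 1 := by
    rcases le_or_gt L 1 with h | h
    · have := Real.rpow_le_one hL0 h (by norm_num : (0 : ℝ) ≤ 3 / 4)
      linarith
    · calc L ^ (3 / 4 : ℝ) ≤ L ^ (1 : ℝ) := Real.rpow_le_rpow_of_exponent_le h.le (by norm_num)
        _ = L := Real.rpow_one _
        _ ≤ L + 1 := by linarith
  rw [← hL, hXL, ← Real.exp_add]
  have h1 : Real.exp (-1) ≤ Real.exp (L + -(c₁ * L ^ (3 / 4 : ℝ))) := by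
    apply Real.exp_le_exp.2
    have : c₁ * L ^ (3 / 4 : ℝ) ≤ 1 * (L ^ (3 / 4 : ℝ)) := mul_le_mul_of_nonneg_right hc₁1 hL34
    linarith
  have h2 : (1 : ℝ) / 3 ≤ Real.exp (-1) := by
    rw [Real.exp_neg, ← one_div]
    apply one_div_le_one_div_of_le (Real.exp_pos _)
    have := Real.exp_one_lt_d9
    linarith
  linarith

/-- the numbers which are not good -/
theorem few_bad : ∃ c D c₁ K : ℝ, 0 < c ∧ 0 < D ∧ 0 < c₁ ∧ c₁ ≤ 1 ∧ 0 ≤ K ∧ ∀ X : ℕ, 1 ≤ X →
    (((range (X + 1)).filter (fun N : ℕ => ¬ Good c D N)).card : ℝ) ≤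
      K * (X * Real.exp (-(c₁ * Real.log X ^ (3 / 4 : ℝ)))) := by
  obtain ⟨c, D, c₁, K, hc, hD, hc₁, hc₁1, hK, hfew⟩ := AdditiveValues.few
  refine ⟨c, D, c₁, K + 9, hc, hD, hc₁, hc₁1, by linarith, fun X hX => ?_⟩
  have h1 : (range (X + 1)).filter (fun N : ℕ => ¬ Good c D N) ⊆
      range 3 ∪ (Icc 3 X).filter (fun N : ℕ => ¬ Slow c D N) := by
    intro N hN
    rw [mem_filter, mem_range] at hN
    rw [mem_union, mem_range, mem_filter, mem_Icc]
    by_cases h : N < 3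
    · exact Or.inl h
    · right
      push Not at h
      exact ⟨⟨h, by omega⟩, fun hs => hN.2 ⟨h, hs⟩⟩
  have h2 := (card_le_card h1).trans (card_union_le _ _)
  rw [card_range] at h2
  have h3 : (((range (X + 1)).filter (fun N : ℕ => ¬ Good c D N)).card : ℝ) ≤
      3 + (((Icc 3 X).filter (fun N : ℕ => ¬ Slow c D N)).card : ℝ) := by exact_mod_cast h2
  have h4 := hfew X hX
  have h5 := one_le hc₁ hc₁1 hX
  have h6 : K * X * Real.exp (-(c₁ * Real.log X ^ (3 / 4 : ℝ))) =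
      K * (X * Real.exp (-(c₁ * Real.log X ^ (3 / 4 : ℝ)))) := by ring
  rw [h6] at h4
  nlinarith

/-- the centre of the ball of the `x` with `q x - r` small -/
lemma centre (p : ℕ) [Fact p.Prime] : ∃ z : ℤ × ℤ → ℤ_[p], ∀ v : ℤ × ℤ, ¬ (p : ℤ) ∣ v.1 → ∀ x : ℤ_[p],
    ‖(v.1 : ℤ_[p]) * x - (v.2 : ℤ_[p])‖ = ‖x - z v‖ := by
  have h : ∀ v : ℤ × ℤ, ∃ z : ℤ_[p], ¬ (p : ℤ) ∣ v.1 → ∀ x : ℤ_[p],
      ‖(v.1 : ℤ_[p]) * x - (v.2 : ℤ_[p])‖ = ‖x - z‖ := by
    intro v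
    by_cases hv : (p : ℤ) ∣ v.1
    · exact ⟨0, fun h => absurd hv h⟩
    · have h1 : ‖((v.1 : ℤ) : ℤ_[p])‖ = 1 := by
        apply le_antisymm (PadicInt.norm_le_one _)
        by_contra hcon
        push Not at hcon
        exact hv ((PadicInt.norm_int_lt_one_iff_dvd v.1).1 hcon)
      obtain ⟨u, hu⟩ := PadicInt.isUnit_iff.2 h1
      refine ⟨(u⁻¹ : (ℤ_[p])ˣ) * (v.2 : ℤ_[p]), fun _ x => ?_⟩
      have e : (v.1 : ℤ_[p]) * x - (v.2 : ℤ_[p]) = (v.1 : ℤ_[p]) * (x - (u⁻¹ : (ℤ_[p])ˣ) * (v.2 : ℤ_[p])) := by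
        rw [← hu, mul_sub, Units.mul_inv_cancel_left]
      rw [e, norm_mul, h1, one_mul]
  choose z hz using h
  exact ⟨z, hz⟩

/-- a padic integer which is not a natural number has truncations which tend to infinity -/
lemma appr_large (p : ℕ) [Fact p.Prime] (x : ℤ_[p]) (hx : ∀ m : ℕ, x ≠ m) (M : ℕ) :
    ∃ n₀ : ℕ, ∀ n : ℕ, n₀ ≤ n → M ≤ x.appr n := by
  have hp : p.Prime := Fact.out
  by_contra hcon
  push Not at hcon
  have hb : ∀ n, x.appr n ≤ M := by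
    intro n
    obtain ⟨k, hk1, hk2⟩ := hcon n
    exact (x.appr_mono hk1).trans hk2.le
  have hex : ∃ m, ∀ n, x.appr n ≤ m := ⟨M, hb⟩
  obtain ⟨m, hm⟩ : ∃ m, m = Nat.find hex := ⟨_, rfl⟩
  have h1 := Nat.find_spec hex
  rw [← hm] at h1
  have h2 : ∃ n₁, m ≤ x.appr n₁ := by
    by_contra h
    push Not at h
    have hm0 : m ≠ 0 := by
      intro h0
      have := h 0
      omega
    have h3 := Nat.find_min hex (m := m - 1) (by rw [← hm]; omega)
    apply h3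
    intro n
    have := h n
    omega
  obtain ⟨n₁, hn₁⟩ := h2
  have h3 : ∀ n, n₁ ≤ n → x.appr n = m := by
    intro n hn
    exact le_antisymm (h1 n) (hn₁.trans (x.appr_mono hn))
  apply hx m
  have h4 : ∀ n, n₁ ≤ n → ‖x - (m : ℤ_[p])‖ ≤ ((p : ℝ) ^ n)⁻¹ := by
    intro n hn
    have h5 := PadicInt.appr_spec n x
    rw [← PadicInt.norm_le_pow_iff_mem_span_pow, zpow_neg, zpow_natCast, h3 n hn] at h5
    exact h5
  by_contra hne
  have h5 : 0 < ‖x - (m : ℤ_[p])‖ := norm_pos_iff.2 (sub_ne_zero.2 hne)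
  obtain ⟨n, hn⟩ := pow_unbounded_of_one_lt (1 / ‖x - (m : ℤ_[p])‖) (show (1 : ℝ) < p by exact_mod_cast hp.one_lt)
  have h6 := h4 (n + n₁) (by omega)
  have h7 : (p : ℝ) ^ n ≤ (p : ℝ) ^ (n + n₁) :=
    pow_le_pow_right₀ (by exact_mod_cast hp.one_lt.le) (by omega)
  have h8 : 1 / ‖x - (m : ℤ_[p])‖ < (p : ℝ) ^ (n + n₁) := lt_of_lt_of_le hn h7
  have h9 : ((p : ℝ) ^ (n + n₁))⁻¹ < ‖x - (m : ℤ_[p])‖ := by
    rw [inv_lt_comm₀ (by have := hp.pos; positivity) h5, ← one_div]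
    exact h8
  linarith

/-- the natural numbers have measure zero -/
lemma null_nat (p : ℕ) [Fact p.Prime] : HaarNull p (Set.range (fun m : ℕ => (m : ℤ_[p]))) := by
  refine (null_limsup p (fun i => (((Nat.unpair i).1 : ℕ) : ℤ_[p])) (fun i => (1 / 2) ^ i) (fun i => by positivity)
    summable_geometric_two).mono ?_
  rintro x ⟨m, rfl⟩
  refine Set.infinite_of_injective_forall_mem (f := fun j : ℕ => Nat.pair m j) ?_ ?_
  · intro a b hab
    have h := congrArg Nat.unpair hab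
    simp only [Nat.unpair_pair] at h
    exact (Prod.ext_iff.1 h).2
  · intro j
    refine ⟨by positivity, ?_⟩
    show ‖((m : ℕ) : ℤ_[p]) - (((Nat.unpair (Nat.pair m j)).1 : ℕ) : ℤ_[p])‖ ≤ (1 / 2) ^ (Nat.pair m j)
    rw [Nat.unpair_pair, sub_self, norm_zero]
    positivity

/-- **The gcd recursion at the integers which approximate padic integers.** There are positive constants `c`, `D`, `c'` such
that for every prime `p` and almost all padic integers `x` (outside a set of Haar measure zero) the parameters `N` are good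
(`N ≥ 3`, `g_N ≥ exp (c (log N)^(1/4))`, and `a_n ≥ N - exp (D (log N)^(3/4))` for all `1 ≤ n ≤ exp (c (log N)^(1/4))`)
(1) for all large natural numbers `N` with `|x - N|_p ≤ exp (c' (log N)^(3/4)) / N`;
(2) for all large `N` which agree with `x` modulo a power `p ^ n` with `N ≤ p ^ n exp (c' n^(3/4) / 2)`;
(3) in particular for all truncations `N = x mod p ^ n`, `n` large;
(4) for `N = |q|` and `N = |r|`, for all large pairs `(q, r)` of integers, `q` not divisible by `p`, with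
`|q x - r|_p ≤ exp (c' (log H)^(3/4)) / H ^ 2`, `H = max (|q|, |r|)`. -/
theorem result : ∃ c D c' : ℝ, 0 < c ∧ 0 < D ∧ 0 < c' ∧ ∀ (p : ℕ) [Fact p.Prime], ∃ E : Set ℤ_[p], HaarNull p E ∧
    ∀ x, x ∉ E →
      (∃ N₀ : ℕ, ∀ N : ℕ, N₀ ≤ N → ‖x - (N : ℤ_[p])‖ ≤ Real.exp (c' * Real.log N ^ (3 / 4 : ℝ)) / N → Good c D N) ∧
      (∃ N₀ : ℕ, ∀ n N : ℕ, N₀ ≤ N → ‖x - (N : ℤ_[p])‖ ≤ ((p : ℝ) ^ n)⁻¹ →
        (N : ℝ) ≤ (p : ℝ) ^ n * Real.exp (c' / 2 * (n : ℝ) ^ (3 / 4 : ℝ)) → Good c D N) ∧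
      (∃ n₀ : ℕ, ∀ n : ℕ, n₀ ≤ n → Good c D (x.appr n)) ∧
      ∃ H₀ : ℝ, ∀ q r : ℤ, H₀ ≤ max |(q : ℝ)| |(r : ℝ)| → ¬ (p : ℤ) ∣ q →
        ‖(q : ℤ_[p]) * x - (r : ℤ_[p])‖ ≤
          Real.exp (c' * Real.log (max |(q : ℝ)| |(r : ℝ)|) ^ (3 / 4 : ℝ)) / max |(q : ℝ)| |(r : ℝ)| ^ 2 →
        Good c D q.natAbs ∧ Good c D r.natAbs := by
  obtain ⟨c, D, c₁, K, hc, hD, hc₁, hc₁1, hK, hfew⟩ := few_bad
  refine ⟨c, D, c₁ / 2, hc, hD, by positivity, fun p _ => ?_⟩
  have hp : p.Prime := Fact.out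
  have hp1 : (1 : ℝ) < p := by exact_mod_cast hp.one_lt
  have hp0 : (0 : ℝ) < p := by linarith
  -- the bad natural numbers
  have hn := null_bad p {N : ℕ | ¬ Good c D N} (fun N => max 1 (N : ℝ)) (fun N => le_max_left _ _) (K := K) (c₁ := c₁)
    (c' := c₁ / 2) 1 hK (by positivity) (by linarith) (fun X hX => by
      have hsub : {N : ℕ | N ∈ {N : ℕ | ¬ Good c D N} ∧ max 1 (N : ℝ) ≤ X} ⊆
          (((range (X + 1)).filter (fun N : ℕ => ¬ Good c D N) : Finset ℕ) : Set ℕ) := by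
        rintro N ⟨h1, h2⟩
        rw [mem_coe, mem_filter, mem_range]
        have h3 : (N : ℝ) ≤ X := (le_max_right _ _).trans h2
        have h4 : N ≤ X := by exact_mod_cast h3
        exact ⟨by omega, h1⟩
      refine ⟨(Finset.finite_toSet _).subset hsub, ?_⟩
      have h1 := Set.ncard_le_ncard hsub (Finset.finite_toSet _)
      rw [Set.ncard_coe_finset] at h1
      have h2 := hfew X hX
      rw [pow_one, mul_assoc]
      refine le_trans ?_ h2
      exact_mod_cast h1) (fun N => (N : ℤ_[p]))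
  -- the bad pairs
  obtain ⟨z, hz⟩ := centre p
  have hpair := null_bad p {v : ℤ × ℤ | ¬ (p : ℤ) ∣ v.1 ∧ ¬ (Good c D v.1.natAbs ∧ Good c D v.2.natAbs)}
    (fun v => max 1 (max |(v.1 : ℝ)| |(v.2 : ℝ)|)) (fun v => le_max_left _ _) (K := 12 * K) (c₁ := c₁)
    (c' := c₁ / 2) 2 (by positivity) (by positivity) (by linarith) (fun X hX => by
      obtain ⟨F, hF⟩ : ∃ F : Finset ℕ, F = (range (X + 1)).filter (fun N : ℕ => ¬ Good c D N) := ⟨_, rfl⟩
      obtain ⟨S, hS⟩ : ∃ S : Finset ℤ, S = F.image (fun N : ℕ => (N : ℤ)) ∪ F.image (fun N : ℕ => -(N : ℤ)) := ⟨_, rfl⟩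
      have hSm : ∀ n : ℤ, |(n : ℝ)| ≤ X → ¬ Good c D n.natAbs → n ∈ S := by
        intro n h1 h2
        have h3 : n.natAbs ≤ X := by
          have : ((n.natAbs : ℕ) : ℝ) ≤ X := by
            rw [Nat.cast_natAbs, Int.cast_abs]
            exact h1
          exact_mod_cast this
        have h4 : n.natAbs ∈ F := by
          rw [hF, mem_filter, mem_range]
          exact ⟨by omega, h2⟩
        rw [hS, mem_union, mem_image, mem_image]
        rcases le_total 0 n with h | h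
        · left
          exact ⟨_, h4, by simp [Int.natAbs_of_nonneg h]⟩
        · right
          refine ⟨_, h4, ?_⟩
          rw [Int.ofNat_natAbs_of_nonpos h]
          ring
      have hIm : ∀ n : ℤ, |(n : ℝ)| ≤ X → n ∈ Icc (-(X : ℤ)) X := by
        intro n h1
        rw [mem_Icc]
        rw [abs_le] at h1
        constructor
        · have := h1.1
          exact_mod_cast this
        · exact_mod_cast h1.2
      have hsub : {v : ℤ × ℤ | v ∈ {v : ℤ × ℤ | ¬ (p : ℤ) ∣ v.1 ∧ ¬ (Good c D v.1.natAbs ∧ Good c D v.2.natAbs)} ∧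
          max 1 (max |(v.1 : ℝ)| |(v.2 : ℝ)|) ≤ X} ⊆
          (((S ×ˢ Icc (-(X : ℤ)) X) ∪ (Icc (-(X : ℤ)) X ×ˢ S) : Finset (ℤ × ℤ)) : Set (ℤ × ℤ)) := by
        rintro v ⟨⟨_, h1⟩, h2⟩
        have h3 := (max_le_iff.1 (max_le_iff.1 h2).2)
        rw [mem_coe, mem_union, mem_product, mem_product]
        by_cases h4 : Good c D v.1.natAbs
        · right
          exact ⟨hIm _ h3.1, hSm _ h3.2 (fun h5 => h1 ⟨h4, h5⟩)⟩
        · left
          exact ⟨hSm _ h3.1 h4, hIm _ h3.2⟩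
      refine ⟨(Finset.finite_toSet _).subset hsub, ?_⟩
      have h1 := Set.ncard_le_ncard hsub (Finset.finite_toSet _)
      rw [Set.ncard_coe_finset] at h1
      have h2 : S.card ≤ 2 * F.card := by
        rw [hS]
        refine (card_union_le _ _).trans ?_
        have h3 := card_image_le (s := F) (f := fun N : ℕ => (N : ℤ))
        have h4 := card_image_le (s := F) (f := fun N : ℕ => -(N : ℤ))
        omega
      have h3 : ((S ×ˢ Icc (-(X : ℤ)) X) ∪ (Icc (-(X : ℤ)) X ×ˢ S) : Finset (ℤ × ℤ)).card ≤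
          2 * (S.card * (2 * X + 1)) := by
        refine (card_union_le _ _).trans ?_
        rw [card_product, card_product, Int.card_Icc]
        have e : ((X : ℤ) + 1 - -(X : ℤ)).toNat = 2 * X + 1 := by omega
        rw [e]
        exact le_of_eq (by ring)
      have h4 : ((S.card : ℕ) : ℝ) ≤ 2 * (K * (X * Real.exp (-(c₁ * Real.log X ^ (3 / 4 : ℝ))))) := by
        have h5 := hfew X hX
        rw [← hF] at h5
        have h6 : ((S.card : ℕ) : ℝ) ≤ 2 * (F.card : ℝ) := by exact_mod_cast h2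
        linarith
      have h5 := h1.trans h3
      have h6 : (({v : ℤ × ℤ | v ∈ {v : ℤ × ℤ | ¬ (p : ℤ) ∣ v.1 ∧
          ¬ (Good c D v.1.natAbs ∧ Good c D v.2.natAbs)} ∧ max 1 (max |(v.1 : ℝ)| |(v.2 : ℝ)|) ≤ X}.ncard : ℕ) : ℝ) ≤
          2 * (S.card * (2 * (X : ℝ) + 1)) := by exact_mod_cast h5
      refine h6.trans ?_
      have hX1 : (1 : ℝ) ≤ X := by exact_mod_cast hX
      have h7 : 2 * (X : ℝ) + 1 ≤ 3 * X := by linarith
      obtain ⟨W, hW⟩ : ∃ W : ℝ, W = Real.exp (-(c₁ * Real.log X ^ (3 / 4 : ℝ))) := ⟨_, rfl⟩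
      have hW0 : 0 < W := by rw [hW]; exact Real.exp_pos _
      rw [← hW] at h4 ⊢
      calc 2 * (S.card * (2 * (X : ℝ) + 1)) ≤ 2 * ((2 * (K * (X * W))) * (3 * X)) := by
            apply mul_le_mul_of_nonneg_left _ (by norm_num)
            exact mul_le_mul h4 h7 (by positivity) (by positivity)
        _ = 12 * K * (X : ℝ) ^ 2 * W := by ring) z
  refine ⟨_, (hn.union hpair).union (null_nat p), fun x hx => ?_⟩
  rw [Set.mem_union, Set.mem_union, not_or, not_or] at hx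
  obtain ⟨⟨hx1, hx2⟩, hx3⟩ := hx
  have h1 := Set.not_infinite.1 hx1
  have h2 := Set.not_infinite.1 hx2
  have A : ∃ N₀ : ℕ, 1 ≤ N₀ ∧ ∀ N : ℕ, N₀ ≤ N →
      ‖x - (N : ℤ_[p])‖ ≤ Real.exp (c₁ / 2 * Real.log N ^ (3 / 4 : ℝ)) / N → Good c D N := by
    obtain ⟨M, hM⟩ := h1.bddAbove
    refine ⟨M + 1, by omega, fun N hN hnear => ?_⟩
    by_contra hcon
    have h3 : N ≤ M := by
      apply hM
      refine ⟨hcon, ?_⟩
      have hN1 : (1 : ℝ) ≤ N := by exact_mod_cast (by omega : 1 ≤ N)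
      show ‖x - (N : ℤ_[p])‖ ≤ Real.exp (c₁ / 2 * Real.log (max 1 (N : ℝ)) ^ (3 / 4 : ℝ)) / (max 1 (N : ℝ)) ^ 1
      rw [max_eq_right hN1, pow_one]
      exact hnear
    omega
  obtain ⟨N₀, hN₀1, hN₀⟩ := A
  have B : ∀ n N : ℕ, N₀ ≤ N → ‖x - (N : ℤ_[p])‖ ≤ ((p : ℝ) ^ n)⁻¹ →
        (N : ℝ) ≤ (p : ℝ) ^ n * Real.exp (c₁ / 2 / 2 * (n : ℝ) ^ (3 / 4 : ℝ)) → Good c D N := by
    intro n N hN hnear hle
    refine hN₀ N hN (hnear.trans ?_)
    have hN1 : (1 : ℝ) ≤ N := by exact_mod_cast (hN₀1.trans hN)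
    have hN0 : (0 : ℝ) < N := by linarith
    have hpn : (0 : ℝ) < (p : ℝ) ^ n := by positivity
    rw [inv_eq_one_div, div_le_div_iff₀ hpn hN0, one_mul, mul_comm]
    rcases le_total (N : ℝ) ((p : ℝ) ^ n) with h3 | h3
    · have h4 : 1 ≤ Real.exp (c₁ / 2 * Real.log N ^ (3 / 4 : ℝ)) := by
        apply Real.one_le_exp
        have := Real.log_nonneg hN1
        positivity
      nlinarith
    · refine hle.trans (mul_le_mul_of_nonneg_left ?_ hpn.le)
      apply Real.exp_le_exp.2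
      have h4 : (n : ℝ) * Real.log 2 ≤ Real.log N := by
        have h5 : (n : ℝ) * Real.log p ≤ Real.log N := by
          rw [← Real.log_pow]
          exact Real.log_le_log hpn h3
        have h6 : Real.log 2 ≤ Real.log p := Real.log_le_log (by norm_num) (by exact_mod_cast hp.two_le)
        have h7 : (n : ℝ) * Real.log 2 ≤ n * Real.log p := mul_le_mul_of_nonneg_left h6 (Nat.cast_nonneg n)
        linarith
      have hl2 : (0 : ℝ) < Real.log 2 := Real.log_pos (by norm_num)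
      have hl2' : Real.log 2 ≤ 1 := by have := Real.log_two_lt_d9; linarith
      have hl2'' : (1 : ℝ) / 2 ≤ Real.log 2 := by have := Real.log_two_gt_d9; linarith
      have h5 : ((n : ℝ) * Real.log 2) ^ (3 / 4 : ℝ) ≤ Real.log N ^ (3 / 4 : ℝ) :=
        Real.rpow_le_rpow (by positivity) h4 (by norm_num)
      rw [Real.mul_rpow (Nat.cast_nonneg n) hl2.le] at h5
      have h6 : (1 : ℝ) / 2 ≤ Real.log 2 ^ (3 / 4 : ℝ) := by
        calc (1 : ℝ) / 2 ≤ Real.log 2 := hl2''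
          _ = Real.log 2 ^ (1 : ℝ) := (Real.rpow_one _).symm
          _ ≤ Real.log 2 ^ (3 / 4 : ℝ) := Real.rpow_le_rpow_of_exponent_ge hl2 hl2' (by norm_num)
      have h7 : 0 ≤ (n : ℝ) ^ (3 / 4 : ℝ) := by positivity
      have h8 : (n : ℝ) ^ (3 / 4 : ℝ) / 2 ≤ Real.log N ^ (3 / 4 : ℝ) := by nlinarith
      calc c₁ / 2 / 2 * (n : ℝ) ^ (3 / 4 : ℝ) = c₁ / 2 * ((n : ℝ) ^ (3 / 4 : ℝ) / 2) := by ring
        _ ≤ c₁ / 2 * Real.log N ^ (3 / 4 : ℝ) := mul_le_mul_of_nonneg_left h8 (by positivity)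
  refine ⟨⟨N₀, hN₀⟩, ⟨N₀, B⟩, ?_, ?_⟩
  · obtain ⟨n₀, hn₀⟩ := appr_large p x (fun m h => hx3 ⟨m, h.symm⟩) N₀
    refine ⟨n₀, fun n hn => B n _ (hn₀ n hn) ?_ ?_⟩
    · have h5 := PadicInt.appr_spec n x
      rw [← PadicInt.norm_le_pow_iff_mem_span_pow, zpow_neg, zpow_natCast] at h5
      exact h5
    · have h3 : ((x.appr n : ℕ) : ℝ) ≤ (p : ℝ) ^ n := by exact_mod_cast (x.appr_lt n).le
      have h4 : 1 ≤ Real.exp (c₁ / 2 / 2 * (n : ℝ) ^ (3 / 4 : ℝ)) := Real.one_le_exp (by positivity)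
      have h5 : (0 : ℝ) < (p : ℝ) ^ n := by positivity
      nlinarith
  · obtain ⟨M, hM⟩ := (h2.image (fun v : ℤ × ℤ => max 1 (max |(v.1 : ℝ)| |(v.2 : ℝ)|))).bddAbove
    refine ⟨|M| + 1, fun q r hqr hq hnear => ?_⟩
    by_contra hcon
    have hM1 := le_abs_self M
    have hH1 : 1 ≤ max |(q : ℝ)| |(r : ℝ)| := by
      have := abs_nonneg M
      linarith
    have h3 : max 1 (max |(q : ℝ)| |(r : ℝ)|) ≤ M := by
      apply hM
      refine ⟨(q, r), ⟨⟨hq, hcon⟩, ?_⟩, rfl⟩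
      show ‖x - z (q, r)‖ ≤ Real.exp (c₁ / 2 * Real.log (max 1 (max |(q : ℝ)| |(r : ℝ)|)) ^ (3 / 4 : ℝ)) /
        (max 1 (max |(q : ℝ)| |(r : ℝ)|)) ^ 2
      rw [max_eq_right hH1, ← hz (q, r) hq x]
      exact hnear
    rw [max_eq_right hH1] at h3
    linarith

end Pool.Agent.Results.MP_b5e119_nt.PadicApproximations
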